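import Pool.Agent.Q260.DS.Stm4

/-! # Project DS, job RK: multiplicity of a zero on the line from a zero free region -/

set_option autoImplicit false

namespace Pool.Agent.Q182.DS

open Complex Filter Topology Metric Set
open scoped ComplexConjugate
open Pool.Agent.Q260.DS

/-- Factorisation of an entire function vanishing to order `n` at `a`. -/
theorem exists_factor (F : ℂ → ℂ) (hF : Differentiable ℂ F) (a : ℂ) (n : ℕ)
    (h : ∀ j < n, iteratedDeriv j F a = 0) :
    ∃ H : ℂ → ℂ, Differentiable ℂ H ∧ ∀ z, F z = (z - a) ^ n * H z := by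
  have hFa : AnalyticAt ℂ F a := hF.analyticAt a
  have h1 : (n : ℕ∞) ≤ analyticOrderAt F a :=
    (natCast_le_analyticOrderAt_iff_iteratedDeriv_eq_zero hFa).2 h
  obtain ⟨g, hg, hgF⟩ := (natCast_le_analyticOrderAt hFa).1 h1
  classical
  refine ⟨Function.update (fun z => F z / (z - a) ^ n) a (g a), ?_, ?_⟩
  · intro z
    by_cases hz : z = a
    · subst hz
      have h2 : Function.update (fun w => F w / (w - z) ^ n) z (g z) =ᶠ[𝓝 z] g := by
        filter_upwards [hgF] with w hw
        by_cases hwz : w = z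
        · rw [hwz, Function.update_self]
        · rw [Function.update_of_ne hwz, hw, smul_eq_mul,
            mul_div_cancel_left₀ _ (pow_ne_zero _ (sub_ne_zero.2 hwz))]
      exact (hg.differentiableAt).congr_of_eventuallyEq h2
    · have h2 : Function.update (fun w => F w / (w - a) ^ n) a (g a) =ᶠ[𝓝 z]
          fun w => F w / (w - a) ^ n := by
        filter_upwards [isOpen_ne.mem_nhds hz] with w hw
        rw [Function.update_of_ne hw]
      refine DifferentiableAt.congr_of_eventuallyEq ?_ h2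
      exact (hF z).div (by fun_prop) (pow_ne_zero _ (sub_ne_zero.2 hz))
  · intro z
    by_cases hz : z = a
    · subst hz
      rw [Function.update_self]
      have := hgF.self_of_nhds
      rwa [smul_eq_mul] at this
    · rw [Function.update_of_ne hz, mul_div_cancel₀ _ (pow_ne_zero _ (sub_ne_zero.2 hz))]

/-- Schwarz lemma with multiplicities: the disc with centre `a + 4 δ` and radius `8 δ`. -/
theorem schwarz (F : ℂ → ℂ) (hF : Differentiable ℂ F) (a : ℂ) (δ M : ℝ) (hδ : 0 < δ) (n : ℕ)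
    (h : ∀ j < n, iteratedDeriv j F a = 0)
    (hM : ∀ u : ℂ, ‖u - 4 * δ‖ = 8 * δ → ‖F (u + a)‖ ≤ M) :
    ‖F (4 * δ + a)‖ * 2 ^ n ≤ M := by
  obtain ⟨H, hH, hFH⟩ := exists_factor F hF a n h
  have hq : Differentiable ℂ fun u : ℂ => H (u + a) * (6 * δ + u / 2) ^ n := by
    fun_prop
  have h1 : ‖(fun u : ℂ => H (u + a) * (6 * δ + u / 2) ^ n) (4 * δ)‖ ≤ M := by
    refine norm_le_of_forall_mem_frontier_norm_le (U := ball (4 * δ : ℂ) (8 * δ)) isBounded_ball
      hq.diffContOnCl ?_ (subset_closure (mem_ball_self (by positivity)))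
    intro u hu
    rw [frontier_ball _ (by positivity), mem_sphere, dist_eq_norm] at hu
    have h2 := hM u hu
    rw [hFH, add_sub_cancel_right, norm_mul, norm_pow] at h2
    have h3 : ‖(6 * δ + u / 2 : ℂ)‖ = ‖u‖ := by
      have e1 : ‖u - 4 * δ‖ ^ 2 = (8 * δ) ^ 2 := by rw [hu]
      rw [← sq_eq_sq₀ (norm_nonneg _) (norm_nonneg _)]
      rw [← normSq_eq_norm_sq] at e1 ⊢
      rw [← normSq_eq_norm_sq]
      rw [normSq_apply] at e1 ⊢
      rw [normSq_apply]
      simp at e1 ⊢
      nlinarith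
    change ‖H (u + a) * (6 * δ + u / 2) ^ n‖ ≤ M
    rw [norm_mul, norm_pow, h3, mul_comm]
    exact h2
  have h2 : ‖F (4 * δ + a)‖ * 2 ^ n = ‖H (4 * δ + a) * (6 * δ + (4 * δ) / 2) ^ n‖ := by
    rw [hFH, add_sub_cancel_right, norm_mul, norm_mul, norm_pow, norm_pow]
    have e1 : ‖(4 * δ : ℂ)‖ = 4 * δ := by
      rw [norm_mul, norm_real, Real.norm_of_nonneg hδ.le]
      norm_num
    have e2 : ‖(6 * δ + (4 * δ) / 2 : ℂ)‖ = 8 * δ := by
      have : (6 * δ + (4 * δ) / 2 : ℂ) = ((8 * δ : ℝ) : ℂ) := by push_cast; ring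
      rw [this, norm_real, Real.norm_of_nonneg (by positivity)]
    have e3 : (8 * δ) ^ n = (4 * δ) ^ n * 2 ^ n := by
      rw [← mul_pow]
      congr 1
      ring
    rw [e1, e2, e3]
    ring
  rw [h2]
  exact h1

theorem log3_le : Real.log 3 ≤ 2 := by
  have h := Real.log_le_sub_one_of_pos (show (0 : ℝ) < 3 by norm_num)
  linarith

/-- Consequences of `Ok`. -/
theorem ok_bounds {C1 C L δ : ℝ} (hC1 : 1 ≤ C1) (hC : C1 ≤ C) (hL : 1 ≤ L) (hok : Ok C L δ) :
    1 ≤ δ * L ∧ EE C1 L δ ≤ δ * L := by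
  obtain ⟨h1, h2, h3⟩ := hok
  have hC0 : 0 < C := by linarith
  have hL0 : 0 < L := by linarith
  have hd3 : 0 < δ ^ 3 := by positivity
  constructor
  · have h4 : δ / C ≤ 1 := by
      rw [div_le_one hC0]
      linarith
    have h5 : L ^ (δ / C) ≤ L := by
      calc L ^ (δ / C) ≤ L ^ (1 : ℝ) := Real.rpow_le_rpow_of_exponent_le hL h4
        _ = L := Real.rpow_one L
    have h6 : C / δ ^ 3 ≤ L := h3.trans h5
    rw [div_le_iff₀ hd3] at h6
    have h7 : δ ^ 3 ≤ δ := by
      have : δ ^ 2 ≤ 1 := by nlinarith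
      nlinarith
    nlinarith
  · unfold EE
    have h4 : L ^ (δ / C) ≤ L ^ (δ / C1) :=
      Real.rpow_le_rpow_of_exponent_le hL (div_le_div_of_nonneg_left h1.le (by linarith) hC)
    have h5 : C1 / δ ^ 3 ≤ L ^ (δ / C1) :=
      ((div_le_div_of_nonneg_right hC hd3.le).trans h3).trans h4
    have h6 : L ^ (1 - δ / C1) = L / L ^ (δ / C1) := by
      rw [Real.rpow_sub hL0, Real.rpow_one]
    have h7 : 0 < L ^ (δ / C1) := Real.rpow_pos_of_pos hL0 _
    rw [h6, ← mul_div_assoc, div_le_iff₀ h7]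
    rw [div_le_iff₀ hd3] at h5
    rw [div_mul_eq_mul_div, div_le_iff₀ (by positivity)]
    calc C1 * L ≤ (L ^ (δ / C1) * δ ^ 3) * L := mul_le_mul_of_nonneg_right h5 hL0.le
      _ = δ * L * L ^ (δ / C1) * δ ^ 2 := by ring

/-- The error term at a comparable height. -/
theorem ee_shift {C1 L L' δ : ℝ} (hC1 : 1 ≤ C1) (hL : 0 ≤ L) (hL' : 0 ≤ L') (h : L' ≤ 2 * L) (hδ : 0 < δ)
    (hδ1 : δ ≤ 1) : EE C1 L' δ ≤ 2 * EE C1 L δ := by
  unfold EE
  have h1 : δ / C1 ≤ 1 := by
    rw [div_le_one (by linarith)]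
    linarith
  have h0 : 0 ≤ δ / C1 := by positivity
  have h2 : L' ^ (1 - δ / C1) ≤ 2 * L ^ (1 - δ / C1) := by
    calc L' ^ (1 - δ / C1) ≤ (2 * L) ^ (1 - δ / C1) := Real.rpow_le_rpow hL' h (by linarith)
      _ = 2 ^ (1 - δ / C1) * L ^ (1 - δ / C1) := Real.mul_rpow (by norm_num) hL
      _ ≤ 2 * L ^ (1 - δ / C1) := by
        refine mul_le_mul_of_nonneg_right ?_ (Real.rpow_nonneg hL _)
        calc (2 : ℝ) ^ (1 - δ / C1) ≤ 2 ^ (1 : ℝ) :=
              Real.rpow_le_rpow_of_exponent_le (by norm_num) (by linarith)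
          _ = 2 := Real.rpow_one 2
  calc C1 / δ ^ 2 * L' ^ (1 - δ / C1) ≤ C1 / δ ^ 2 * (2 * L ^ (1 - δ / C1)) :=
        mul_le_mul_of_nonneg_left h2 (by positivity)
    _ = 2 * (C1 / δ ^ 2 * L ^ (1 - δ / C1)) := by ring

/-- JOB RK. -/
theorem t_RK (h : S_LB) : S_RK := by
  intro K A hK hA
  obtain ⟨C1, hC1, hlb⟩ := h K A 0 hK hA
  refine ⟨C1 + 118 * K, by linarith, ?_⟩
  intro y0 f l g hS hsym T δ hCl hδ10 hok hnz n hn
  obtain ⟨e, he, hsy⟩ := hsym
  obtain ⟨L, hL⟩ : ∃ L : ℝ, L = l T := ⟨_, rfl⟩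
  rw [← hL] at hCl hok ⊢
  have hL1 : 1 ≤ L := by linarith
  have hL0 : 0 < L := by linarith
  have hδ : 0 < δ := hok.1
  obtain ⟨hdL, hE⟩ := ok_bounds (C1 := C1) hC1 (by linarith) hL1 hok
  obtain ⟨E, hEdef⟩ : ∃ E : ℝ, E = EE C1 L δ := ⟨_, rfl⟩
  rw [← hEdef] at hE
  have hg0 := hS.pos T
  -- comparison of the heights
  have hl : ∀ v : ℝ, |v| ≤ 1 → |l (T + v) - L| ≤ 2 * K := by
    intro v hv
    have h1 := hS.shift T v
    rw [← hL] at h1
    refine h1.trans ?_
    have h2 : Real.log (2 + |v|) ≤ Real.log 3 := Real.log_le_log (by positivity) (by linarith)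
    have h3 := h2.trans log3_le
    nlinarith
  have hg : ∀ v : ℝ, |v| ≤ 1 → g (T + v) ≤ g T * Real.exp (27 * K) := by
    intro v hv
    have h1 := hS.lo (T + v) 3 (by norm_num)
    have h2 := hS.up T (3 + I * v)
    have e1 : (3 + I * v + I * T : ℂ) = 3 + I * ((T + v : ℝ) : ℂ) := by push_cast; ring
    rw [e1] at h2
    have h3 := h1.trans h2
    have e2 : ‖(3 + I * v : ℂ)‖ ^ 2 = 9 + v ^ 2 := by
      rw [← normSq_eq_norm_sq, normSq_apply]
      simp
      ring
    have e3 : max |(3 + I * v : ℂ).re| (3 / 2) = 3 := by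
      have e0 : (3 + I * v : ℂ).re = 3 := by simp
      rw [e0, abs_of_pos (by norm_num)]
      norm_num
    have e4 : ‖(3 : ℂ)‖ ^ 2 = 9 := by
      norm_num
    rw [e2, e3, e4] at h3
    rw [← hL] at h3
    have e5 : (3 : ℂ).re = 3 := rfl
    rw [e5] at h3
    have h4 := (abs_le.1 (hl v hv)).1
    have h5 : v ^ 2 ≤ 1 := by
      rw [← sq_abs]
      nlinarith [abs_nonneg v]
    have h6 : g (T + v) * Real.exp (l (T + v) * 3 - K * (1 + 9)) * Real.exp (-(l (T + v) * 3 - K * (1 + 9))) =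
        g (T + v) := by
      rw [mul_assoc, ← Real.exp_add]
      simp
    rw [← h6]
    calc g (T + v) * Real.exp (l (T + v) * 3 - K * (1 + 9)) * Real.exp (-(l (T + v) * 3 - K * (1 + 9)))
        ≤ g T * Real.exp (L * 3 + K * (1 + (9 + v ^ 2))) * Real.exp (-(l (T + v) * 3 - K * (1 + 9))) :=
          mul_le_mul_of_nonneg_right h3 (Real.exp_pos _).le
      _ = g T * Real.exp (L * 3 + K * (1 + (9 + v ^ 2)) + -(l (T + v) * 3 - K * (1 + 9))) := by
          rw [mul_assoc, ← Real.exp_add]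
      _ ≤ g T * Real.exp (27 * K) := by
          refine mul_le_mul_of_nonneg_left (Real.exp_le_exp.2 ?_) hg0.le
          nlinarith
  -- the local bounds
  have hloc : ∀ v : ℝ, |v| ≤ 1 → ∀ x : ℝ, 2 * δ ≤ x → x ≤ 3 →
      f (x + I * ((T + v : ℝ) : ℂ)) ≠ 0 ∧
      |Real.log (‖f (x + I * ((T + v : ℝ) : ℂ))‖ / (g (T + v) * Real.exp (l (T + v) * x)))| ≤
        EE C1 (l (T + v)) δ := by
    intro v hv x hx1 hx2
    have h4 := abs_le.1 (hl v hv)
    have hv' := abs_le.1 hv
    have h5 := hlb y0 f l g hS [] ⟨rfl, by simp⟩ (T + v) δ δ (by linarith [h4.1]) hδ.le (by linarith)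
      hδ (by linarith) (by
        intro z hz1 hz2 hz3 hz4
        exact hnz z hz1 hz2 (by linarith [hv'.1]) (by linarith [hv'.2])) x (by linarith) hx2
    refine ⟨h5.1, ?_⟩
    have h6 := h5.2.1
    unfold Nm at h6
    rw [pow_zero, mul_one] at h6
    exact h6
  -- right of the line
  have hright : ∀ v : ℝ, |v| ≤ 1 → ∀ x : ℝ, 2 * δ ≤ x → x ≤ 12 * δ →
      ‖f (x + I * ((T + v : ℝ) : ℂ))‖ ≤ g T * Real.exp (30 * K + 12 * (δ * L) + 2 * E) := by
    intro v hv x hx1 hx2
    obtain ⟨h1, h2⟩ := hloc v hv x hx1 (by linarith)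
    have hlv := abs_le.1 (hl v hv)
    have h3 : 0 < ‖f (x + I * ((T + v : ℝ) : ℂ))‖ := norm_pos_iff.2 h1
    have h4 : 0 < g (T + v) * Real.exp (l (T + v) * x) := mul_pos (hS.pos _) (Real.exp_pos _)
    have h5 := (abs_le.1 h2).2
    have h6 : ‖f (x + I * ((T + v : ℝ) : ℂ))‖ / (g (T + v) * Real.exp (l (T + v) * x)) ≤
        Real.exp (EE C1 (l (T + v)) δ) := by
      rw [← Real.log_le_iff_le_exp (div_pos h3 h4)]
      exact h5
    rw [div_le_iff₀ h4] at h6
    have h7 : EE C1 (l (T + v)) δ ≤ 2 * E := by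
      rw [hEdef]
      exact ee_shift hC1 hL0.le (by linarith [hlv.1]) (by linarith [hlv.2]) hδ (by linarith)
    have h8 : l (T + v) * x ≤ 12 * (δ * L) + 3 * K := by
      have e1 : l (T + v) * x ≤ (L + 2 * K) * x :=
        mul_le_mul_of_nonneg_right (by linarith [hlv.2]) (by linarith)
      have e2 : (L + 2 * K) * x ≤ (L + 2 * K) * (12 * δ) :=
        mul_le_mul_of_nonneg_left hx2 (by linarith)
      nlinarith
    calc ‖f (x + I * ((T + v : ℝ) : ℂ))‖
        ≤ Real.exp (EE C1 (l (T + v)) δ) * (g (T + v) * Real.exp (l (T + v) * x)) := h6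
      _ ≤ Real.exp (2 * E) * ((g T * Real.exp (27 * K)) * Real.exp (12 * (δ * L) + 3 * K)) := by
          refine mul_le_mul (Real.exp_le_exp.2 h7) ?_ h4.le (Real.exp_pos _).le
          exact mul_le_mul (hg v hv) (Real.exp_le_exp.2 h8) (Real.exp_pos _).le (by positivity)
      _ = g T * Real.exp (30 * K + 12 * (δ * L) + 2 * E) := by
          have e9 : Real.exp (30 * K + 12 * (δ * L) + 2 * E) =
              Real.exp (2 * E) * (Real.exp (27 * K) * Real.exp (12 * (δ * L) + 3 * K)) := by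
            rw [← Real.exp_add, ← Real.exp_add]
            congr 1
            ring
          rw [e9]
          ring
  -- the symmetry
  have hsn : ∀ z : ℂ, ‖f z‖ = ‖f (-conj z)‖ := by
    intro z
    conv_lhs => rw [hsy z]
    rw [norm_mul, he, one_mul, norm_conj]
  have hside : ∀ u : ℂ, |u.im| ≤ 1 → 2 * δ ≤ |u.re| → |u.re| ≤ 12 * δ →
      ‖f (u + I * T)‖ ≤ g T * Real.exp (30 * K + 12 * (δ * L) + 2 * E) := by
    intro u h1 h2 h3
    rcases le_total 0 u.re with h4 | h4
    · rw [abs_of_nonneg h4] at h2 h3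
      have h5 := hright u.im h1 u.re h2 h3
      have e1 : (u.re + I * ((T + u.im : ℝ) : ℂ) : ℂ) = u + I * T := by
        conv_rhs => rw [← re_add_im u]
        push_cast
        ring
      rwa [e1] at h5
    · rw [abs_of_nonpos h4] at h2 h3
      have h5 := hright u.im h1 (-u.re) h2 h3
      have e1 : (((-u.re : ℝ) : ℂ) + I * ((T + u.im : ℝ) : ℂ) : ℂ) = -conj (u + I * T) := by
        apply Complex.ext
        · simp
        · simp [add_comm]
      rw [e1, ← hsn] at h5
      exact h5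
  -- the maximum principle in the rectangle
  have hrect : ∀ u : ℂ, |u.re| ≤ 2 * δ → |u.im| ≤ 1 →
      ‖f (u + I * T) * Complex.exp (2 * L * u ^ 2)‖ ≤
        g T * Real.exp (30 * K + 13 * (δ * L) + 2 * E) := by
    have hEn : 0 ≤ E := by
      rw [hEdef]
      unfold EE
      have := Real.rpow_nonneg hL0.le (1 - δ / C1)
      positivity
    have hnorm : ∀ u : ℂ, ‖Complex.exp (2 * L * u ^ 2)‖ = Real.exp (2 * L * (u.re ^ 2 - u.im ^ 2)) := by
      intro u
      rw [Complex.norm_exp]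
      congr 1
      simp [pow_two]
    intro u hu1 hu2
    have hF : Differentiable ℂ fun u : ℂ => f (u + I * T) * Complex.exp (2 * L * u ^ 2) := by
      have := hS.diff
      fun_prop
    refine norm_le_of_forall_mem_frontier_norm_le
      (f := fun u : ℂ => f (u + I * T) * Complex.exp (2 * L * u ^ 2))
      (U := Ioo (-(2 * δ)) (2 * δ) ×ℂ Ioo (-1) 1) ((isBounded_Ioo _ _).reProdIm (isBounded_Ioo _ _))
      hF.diffContOnCl ?_ ?_
    · intro z hz
      rw [frontier_reProdIm, closure_Ioo (by linarith), closure_Ioo (by norm_num),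
        frontier_Ioo (by norm_num), frontier_Ioo (by linarith)] at hz
      change ‖f (z + I * T) * Complex.exp (2 * L * z ^ 2)‖ ≤ _
      rw [norm_mul, hnorm]
      rcases hz with ⟨hz1, hz2⟩ | ⟨hz1, hz2⟩
      · -- top and bottom
        have hz1' : -(2 * δ) ≤ z.re ∧ z.re ≤ 2 * δ := hz1
        have hz2' : z.im ^ 2 = 1 := by
          rcases hz2 with h1 | h1
          · rw [h1]; norm_num
          · rw [Set.mem_singleton_iff.1 h1]; norm_num
        have hre2 : z.re ^ 2 ≤ 4 * δ ^ 2 := by nlinarith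
        have hre3 : z.re ^ 2 ≤ 1 / 25 := by nlinarith
        have h1 := hS.up T z
        have e2 : ‖z‖ ^ 2 = z.re ^ 2 + z.im ^ 2 := by
          rw [← normSq_eq_norm_sq, normSq_apply]
          ring
        have e3 : max |z.re| (3 / 2) = 3 / 2 := by
          refine max_eq_right ?_
          rw [abs_le]
          constructor <;> linarith
        rw [e2, e3, hz2', ← hL] at h1
        calc ‖f (z + I * T)‖ * Real.exp (2 * L * (z.re ^ 2 - z.im ^ 2))
            ≤ (g T * Real.exp (L * (3 / 2) + K * (1 + (z.re ^ 2 + 1)))) *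
                Real.exp (2 * L * (z.re ^ 2 - z.im ^ 2)) :=
              mul_le_mul_of_nonneg_right h1 (Real.exp_pos _).le
          _ = g T * Real.exp (L * (3 / 2) + K * (1 + (z.re ^ 2 + 1)) +
                2 * L * (z.re ^ 2 - z.im ^ 2)) := by
              rw [mul_assoc, ← Real.exp_add]
          _ ≤ g T * Real.exp (30 * K + 13 * (δ * L) + 2 * E) := by
              refine mul_le_mul_of_nonneg_left (Real.exp_le_exp.2 ?_) hg0.le
              rw [hz2']
              nlinarith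
      · -- the sides
        have hz2' : -1 ≤ z.im ∧ z.im ≤ 1 := hz2
        have hz1' : |z.re| = 2 * δ := by
          rcases hz1 with h1 | h1
          · rw [h1, abs_neg, abs_of_nonneg (by positivity)]
          · rw [Set.mem_singleton_iff.1 h1, abs_of_nonneg (by positivity)]
        have h1 := hside z (abs_le.2 hz2') (by rw [hz1']) (by rw [hz1']; linarith)
        have h2 : z.re ^ 2 = 4 * δ ^ 2 := by
          rw [← sq_abs, hz1']
          ring
        calc ‖f (z + I * T)‖ * Real.exp (2 * L * (z.re ^ 2 - z.im ^ 2))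
            ≤ (g T * Real.exp (30 * K + 12 * (δ * L) + 2 * E)) * Real.exp (δ * L) := by
              refine mul_le_mul h1 (Real.exp_le_exp.2 ?_) (Real.exp_pos _).le (by positivity)
              rw [h2]
              nlinarith [sq_nonneg z.im, mul_nonneg hδ.le hL0.le,
                mul_nonneg hL0.le (sq_nonneg z.im)]
          _ = g T * Real.exp (30 * K + 13 * (δ * L) + 2 * E) := by
              rw [mul_assoc, ← Real.exp_add]
              congr 2
              ring
    · rw [closure_reProdIm, closure_Ioo (by linarith), closure_Ioo (by norm_num)]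
      exact ⟨abs_le.1 hu1, abs_le.1 hu2⟩
  -- the bound on the disc
  have hdisc : ∀ u : ℂ, ‖u - 4 * δ‖ = 8 * δ →
      ‖f (u + I * T)‖ ≤ g T * Real.exp (30 * K + 26 * (δ * L) + 2 * E) := by
    intro u hu
    have h1 : |u.re - 4 * δ| ≤ 8 * δ := by
      have := (abs_re_le_norm (u - 4 * δ)).trans hu.le
      simpa using this
    have h2 : |u.im| ≤ 8 * δ := by
      have := (abs_im_le_norm (u - 4 * δ)).trans hu.le
      simpa using this
    have h1' := abs_le.1 h1
    have h3 : |u.re| ≤ 12 * δ := by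
      rw [abs_le]
      constructor <;> linarith [h1'.1, h1'.2]
    have hi1 : |u.im| ≤ 1 := by linarith
    rcases le_or_gt (2 * δ) |u.re| with h4 | h4
    · refine (hside u hi1 h4 h3).trans ?_
      refine mul_le_mul_of_nonneg_left (Real.exp_le_exp.2 ?_) hg0.le
      linarith
    · have h5 := hrect u h4.le hi1
      have hnorm : ‖Complex.exp (2 * L * u ^ 2)‖ = Real.exp (2 * L * (u.re ^ 2 - u.im ^ 2)) := by
        rw [Complex.norm_exp]
        congr 1
        simp [pow_two]
      rw [norm_mul, hnorm] at h5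
      have h6 : u.im ^ 2 ≤ 64 * δ ^ 2 := by
        rw [← sq_abs]
        nlinarith [abs_nonneg u.im]
      have h7 : -(2 * L * (u.re ^ 2 - u.im ^ 2)) ≤ 13 * (δ * L) := by
        have e1 : 2 * L * u.im ^ 2 ≤ 2 * L * (64 * δ ^ 2) :=
          mul_le_mul_of_nonneg_left h6 (by positivity)
        have e2 : 2 * L * (64 * δ ^ 2) ≤ 13 * (δ * L) := by
          have : δ * (δ * L) ≤ 1 / 10 * (δ * L) :=
            mul_le_mul_of_nonneg_right hδ10 (by positivity)
          nlinarith
        nlinarith [mul_nonneg hL0.le (sq_nonneg u.re)]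
      calc ‖f (u + I * T)‖ = ‖f (u + I * T)‖ * Real.exp (2 * L * (u.re ^ 2 - u.im ^ 2)) *
            Real.exp (-(2 * L * (u.re ^ 2 - u.im ^ 2))) := by
            rw [mul_assoc, ← Real.exp_add]
            simp
        _ ≤ (g T * Real.exp (30 * K + 13 * (δ * L) + 2 * E)) * Real.exp (13 * (δ * L)) :=
            mul_le_mul h5 (Real.exp_le_exp.2 h7) (Real.exp_pos _).le (by positivity)
        _ = g T * Real.exp (30 * K + 26 * (δ * L) + 2 * E) := by
            rw [mul_assoc, ← Real.exp_add]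
            congr 2
            ring
  -- the lower bound at the centre
  have hcen : g T * Real.exp (-E) ≤ ‖f (4 * δ + I * T)‖ := by
    obtain ⟨h1, h2⟩ := hloc 0 (by simp) (4 * δ) (by linarith) (by linarith)
    rw [add_zero, ← hL, ← hEdef] at h2
    rw [add_zero] at h1
    have e1 : (((4 * δ : ℝ) : ℂ) + I * (T : ℂ) : ℂ) = 4 * δ + I * T := by push_cast; ring
    rw [e1] at h1 h2
    have h3 : 0 < ‖f (4 * δ + I * T)‖ := norm_pos_iff.2 h1
    have h4 : 0 < g T * Real.exp (L * (4 * δ)) := mul_pos hg0 (Real.exp_pos _)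
    have h5 := (abs_le.1 h2).1
    have h6 : Real.exp (-E) ≤ ‖f (4 * δ + I * T)‖ / (g T * Real.exp (L * (4 * δ))) := by
      rw [← Real.le_log_iff_exp_le (div_pos h3 h4)]
      exact h5
    rw [le_div_iff₀ h4] at h6
    refine le_trans ?_ h6
    have h7 : 1 ≤ Real.exp (L * (4 * δ)) := Real.one_le_exp (by positivity)
    calc g T * Real.exp (-E) = Real.exp (-E) * (g T * 1) := by ring
      _ ≤ Real.exp (-E) * (g T * Real.exp (L * (4 * δ))) := by
          refine mul_le_mul_of_nonneg_left ?_ (Real.exp_pos _).le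
          exact mul_le_mul_of_nonneg_left h7 hg0.le
  have hfin := schwarz f hS.diff (I * T) δ _ hδ n hn hdisc
  have h1 : g T * Real.exp (-E) * 2 ^ n ≤ g T * Real.exp (30 * K + 26 * (δ * L) + 2 * E) :=
    (mul_le_mul_of_nonneg_right hcen (by positivity)).trans hfin
  have h2 : (2 : ℝ) ^ n ≤ Real.exp (30 * K + 26 * (δ * L) + 3 * E) := by
    have h3 : Real.exp (-E) * 2 ^ n ≤ Real.exp (30 * K + 26 * (δ * L) + 2 * E) := by
      refine le_of_mul_le_mul_left ?_ hg0
      calc g T * (Real.exp (-E) * 2 ^ n) = g T * Real.exp (-E) * 2 ^ n := by ring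
        _ ≤ _ := h1
    calc (2 : ℝ) ^ n = Real.exp E * (Real.exp (-E) * 2 ^ n) := by
          rw [← mul_assoc, ← Real.exp_add]
          simp
      _ ≤ Real.exp E * Real.exp (30 * K + 26 * (δ * L) + 2 * E) :=
          mul_le_mul_of_nonneg_left h3 (Real.exp_pos _).le
      _ = Real.exp (30 * K + 26 * (δ * L) + 3 * E) := by
          rw [← Real.exp_add]
          congr 1
          ring
  have h3 : (n : ℝ) * Real.log 2 ≤ 30 * K + 26 * (δ * L) + 3 * E := by
    have h4 := Real.log_le_log (by positivity) h2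
    rwa [Real.log_pow, Real.log_exp] at h4
  have h4 : (1 : ℝ) / 2 ≤ Real.log 2 := by
    have := Real.log_two_gt_d9
    linarith
  have h5 : (n : ℝ) * (1 / 2) ≤ n * Real.log 2 := mul_le_mul_of_nonneg_left h4 (Nat.cast_nonneg n)
  have h6 : K ≤ K * (δ * L) := by nlinarith
  have h7 : (n : ℝ) ≤ 60 * (K * (δ * L)) + 58 * (δ * L) := by linarith
  have h8 : 0 ≤ C1 * (δ * L) := by positivity
  have h9 : δ * L ≤ K * (δ * L) := by nlinarith
  calc (n : ℝ) ≤ 60 * (K * (δ * L)) + 58 * (δ * L) := h7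
    _ ≤ C1 * (δ * L) + 118 * (K * (δ * L)) := by linarith
    _ = (C1 + 118 * K) * δ * L := by ring

end Pool.Agent.Q182.DS
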